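import Pool.Agent.H274Z.RM.Rank

set_option autoImplicit false

universe u

/-- Over every complete Noetherian local domain of Krull dimension one there are, for every `N`,
only finitely many isomorphism classes of rigid maximal Cohen-Macaulay modules of rank at most
`N`. -/
theorem Pool.Agent.Results.MP_682396_ag.ADimOne.result (R : Type u) [CommRing R] [IsDomain R] [IsNoetherianRing R]
    [IsLocalRing R] (hcpl : IsAdicComplete (IsLocalRing.maximalIdeal R) R)
    (hdim : ringKrullDim R = 1) (N : ℕ) :
    ∃ S : Set (Σ k : ℕ, Submodule R (Fin k → R)), S.Finite ∧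
      ∀ (M : Type u) [AddCommGroup M] [Module R M],
        Module.Finite R M →
        (∃ rs : List R, (∀ r ∈ rs, r ∈ IsLocalRing.maximalIdeal R) ∧
            RingTheory.Sequence.IsWeaklyRegular M rs ∧
            ((rs.length : ℕ∞) : WithBot ℕ∞) = ringKrullDim R) →
        (∀ (E : Type u) [AddCommGroup E] [Module R E] (f : M →ₗ[R] E) (g : E →ₗ[R] M),
            Function.Injective f → Function.Surjective g →
            LinearMap.range f = LinearMap.ker g →
            ∃ s : M →ₗ[R] E, g ∘ₗ s = LinearMap.id) →
        Module.finrank R M ≤ N →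
        ∃ p ∈ S, Nonempty (M ≃ₗ[R] (Fin p.1 → R) ⧸ p.2) :=
  Pool.Agent.H274Z.RM.main_rank R hcpl hdim N
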